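import Pool.Agent.helper36.WB.MB1core
import Pool.Agent.helper19.WB.B1a
import Pool.Agent.helper96.WB.MA12

/-! helper36: module [MB1] of part M (helper88) of the project of helper21 on MP_7b8095_gt. -/

set_option autoImplicit false

namespace Pool.Agent.helper88.WB
open Pool.Agent.helper21.WB

/-- [MB1] images of geodesics are quasigeodesics -/
theorem coarse₁ (a : ℝ) : ∃ D c C : ℝ, 0 < c ∧ c ≤ 1 ∧ 0 ≤ C ∧ ∀ F : X → X, NI D a F →
    (∀ x y, c * hd x y - C ≤ hd (F x) (F y)) ∧ (∀ x y, hd (F x) (F y) ≤ 2 * hd x y + C) ∧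
    (∀ x y z, hd x z + hd z y = hd x y → gp (F x) (F y) (F z) ≤ C) :=
  MB1.coarse₁_of hd_triangle four_point exists_line a

end Pool.Agent.helper88.WB
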