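import Pool.Agent.helper88.WB.ME0
import Pool.Agent.helper19.WB.B1a
import Pool.Agent.helper19.WB.B3a

/-! helper36: module [MK2] of part M (helper88) of the project of helper21 on MP_7b8095_gt:
compactness of bounded sets of isometries, boundedness criterion on three points of the sphere,
transitivity on the sphere. -/

set_option autoImplicit false
open Matrix MeasureTheory Filter Topology

namespace Pool.Agent.helper88.WB
open Pool.Agent.helper21.WB

namespace MK2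

theorem bl_nl (u v : Fin 4 → ℝ) : bl (nl u) (nl v) = - bb u v := by
  rw [bl_apply]
  show ∑ i : Fin 4, u i * v i - 1 * 1 = -(1 - ∑ i, u i * v i)
  ring

theorem oo_eq {g : GLI} (hg : InG g) : ch 0 (act g 0) = g.val o o := by
  rw [ch_zero, lift_act hg, mulVec_lift_zero]

theorem oo_one_le {g : GLI} (hg : InG g) : 1 ≤ g.val o o := by
  rw [← oo_eq hg]; exact one_le_ch _ _

theorem row_sq {g : GLI} (hg : InG g) : ∑ j : Fin 4, g.val o (Sum.inl j) ^ 2 = g.val o o ^ 2 - 1 := by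
  have h := bl_row hg.1
  rw [bl_apply] at h
  simp only [reduceCtorEq, if_false, if_true] at h
  have h2 : ∑ i : Fin 4, (-1 * g.val o (Sum.inl i)) * (-1 * g.val o (Sum.inl i)) =
      ∑ i : Fin 4, g.val o (Sum.inl i) ^ 2 := Finset.sum_congr rfl (fun i _ => by ring)
  rw [h2] at h
  linarith

theorem mulVec_o (A : Mat) (v : I → ℝ) :
    (A *ᵥ v) o = ∑ j : Fin 4, A o (Sum.inl j) * v (Sum.inl j) + A o o * v o := by
  show ∑ j, A o j * v j = _
  rw [Fintype.sum_sum_type]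
  simp

theorem mulVec_nl_pos' {g : GLI} (hg : InG g) {u : Fin 4 → ℝ} (hu : u ∈ Sph) :
    0 < (g.val *ᵥ nl u) o := by
  rw [mulVec_o]
  show 0 < ∑ j : Fin 4, g.val o (Sum.inl j) * u j + g.val o o * 1
  have h1 := cs_spatial (fun j => g.val o (Sum.inl j)) u
  have h2 : ∑ i, u i ^ 2 = 1 := hu
  rw [h2, row_sq hg] at h1
  have h3 := oo_one_le hg
  by_contra hcon
  push Not at hcon
  nlinarith

theorem bb_kact' {g : GLI} (hg : InG g) {u v : Fin 4 → ℝ} (hu : u ∈ Sph) (hv : v ∈ Sph) :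
    bb (kact g u) (kact g v) = bb u v / (((g.val *ᵥ nl u) o) * ((g.val *ᵥ nl v) o)) := by
  unfold kact
  rw [ME0.bb_kl (mulVec_nl_pos' hg hu).ne' (mulVec_nl_pos' hg hv).ne', bl_mulVec hg.1, bl_nl, neg_neg]

theorem bb_self {u : Fin 4 → ℝ} (hu : u ∈ Sph) : bb u u = 0 := by
  have h2 : ∑ i, u i ^ 2 = 1 := hu
  unfold bb
  rw [← h2, sub_eq_zero]
  exact Finset.sum_congr rfl (fun i _ => by ring)

theorem bb_symm (u v : Fin 4 → ℝ) : bb u v = bb v u := by
  unfold bb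
  congr 1
  exact Finset.sum_congr rfl (fun i _ => by ring)

theorem bb_le_two' {u v : Fin 4 → ℝ} (hu : u ∈ Sph) (hv : v ∈ Sph) : bb u v ≤ 2 := by
  have h1 := cs_spatial u v
  have h2 : ∑ i, u i ^ 2 = 1 := hu
  have h3 : ∑ i, v i ^ 2 = 1 := hv
  rw [h2, h3] at h1
  unfold bb
  nlinarith

theorem kact_mem_Sph' {g : GLI} (hg : InG g) {u : Fin 4 → ℝ} (hu : u ∈ Sph) : kact g u ∈ Sph := by
  refine ME0.kl_mem ?_ (mulVec_nl_pos' hg hu).ne'
  rw [bl_mulVec hg.1, bl_nl, bb_self hu, neg_zero]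

theorem hd_le_arcosh {x y : X} {K : ℝ} (h : ch x y ≤ K) : hd x y ≤ Real.arcosh K := by
  have h1 := one_le_ch x y
  exact (Real.arcosh_le_arcosh (by linarith) (by linarith)).2 h

end MK2

open MK2

theorem exists_subseq {g : ℕ → GLI} (hg : ∀ n, InG (g n)) {r : ℝ}
    (hr : ∀ n, hd 0 (act (g n) 0) ≤ r) : ∃ φ : ℕ → ℕ, StrictMono φ ∧ ∃ k : GLI, InG k ∧
      Tendsto (fun n => (g (φ n)).val) atTop (𝓝 k.val) := by
  obtain ⟨M, hM⟩ : ∃ M : ℝ, ∀ n, ∀ i j, |(g n).val i j| ≤ M := by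
    refine ⟨Real.sqrt (1 + 4 * Real.cosh r ^ 2), fun n i j => ?_⟩
    refine (abs_entry_le_fn _ i j).trans ?_
    refine Real.le_sqrt_of_sq_le ?_
    rw [fn_sq_of_inG (hg n)]
    have h1 := oo_one_le (hg n)
    have h2 : (g n).val o o ≤ Real.cosh r := by
      rw [← oo_eq (hg n), ← cosh_hd]
      refine Real.cosh_le_cosh.2 ?_
      rw [abs_of_nonneg (hd_nonneg _ _), abs_of_nonneg ((hd_nonneg _ _).trans (hr n))]
      exact hr n
    nlinarith
  have hcomp : IsCompact (Set.pi Set.univ (fun _ : I => Set.pi Set.univ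
      (fun _ : I => Set.Icc (-M) M)) : Set (I → I → ℝ)) :=
    isCompact_univ_pi (fun _ => isCompact_univ_pi (fun _ => isCompact_Icc))
  let G : ℕ → (I → I → ℝ) := fun n i j => (g n).val i j
  obtain ⟨A₀, _, φ, hφ, hlim⟩ := hcomp.tendsto_subseq (x := G)
    (fun n => by
      intro i _ j _
      exact abs_le.mp (hM n i j))
  obtain ⟨A, hA₀⟩ : ∃ A : Mat, A = A₀ := ⟨A₀, rfl⟩
  have hlim' : Tendsto (fun n => (g (φ n)).val) atTop (𝓝 (A : Mat)) := by
    rw [hA₀]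
    exact hlim
  have hc : Continuous (fun B : Mat => Bᵀ * helper21.WB.J * B) := by fun_prop
  have hA : (A : Mat)ᵀ * helper21.WB.J * (A : Mat) = helper21.WB.J := by
    refine tendsto_nhds_unique ((hc.tendsto _).comp hlim') ?_
    refine tendsto_const_nhds.congr (fun n => ?_)
    exact ((hg (φ n)).1).symm
  have hoo : 1 ≤ (A : Mat) o o := by
    have h1 : Tendsto (fun n => (g (φ n)).val o o) atTop (𝓝 ((A : Mat) o o)) := by
      have : Continuous (fun B : Mat => B o o) := by fun_prop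
      exact (this.tendsto _).comp hlim'
    exact ge_of_tendsto' h1 (fun n => oo_one_le (hg _))
  have h1 : (helper21.WB.J * (A : Mat)ᵀ * helper21.WB.J) * (A : Mat) = 1 := by
    rw [Matrix.mul_assoc helper21.WB.J, Matrix.mul_assoc helper21.WB.J, hA, J_mul_J]
  have h2 : (A : Mat) * (helper21.WB.J * (A : Mat)ᵀ * helper21.WB.J) = 1 := mul_eq_one_comm.1 h1
  exact ⟨φ, hφ, ⟨A, helper21.WB.J * (A : Mat)ᵀ * helper21.WB.J, h2, h1⟩,
    ⟨hA, by show 0 < (A : Mat) o o; linarith⟩, hlim'⟩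

theorem bounded_of_three {c : ℝ} (hc : 0 < c) : ∃ r : ℝ, ∀ g : GLI, InG g →
    ∀ u₁ ∈ Sph, ∀ u₂ ∈ Sph, ∀ u₃ ∈ Sph, c ≤ bb u₁ u₂ → c ≤ bb u₁ u₃ → c ≤ bb u₂ u₃ →
    c ≤ bb (kact g u₁) (kact g u₂) → c ≤ bb (kact g u₁) (kact g u₃) →
    c ≤ bb (kact g u₂) (kact g u₃) → hd 0 (act g 0) ≤ r := by
  refine ⟨Real.arcosh (2 * Real.sqrt (8 / c ^ 3) / Real.sqrt (2 * c)) +
    Real.arcosh (2 / Real.sqrt (2 * c)), ?_⟩
  intro g hg u₁ hu₁ u₂ hu₂ u₃ hu₃ h12 h13 h23 g12 g13 g23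
  have l1 := mulVec_nl_pos' hg hu₁
  have l2 := mulVec_nl_pos' hg hu₂
  have l3 := mulVec_nl_pos' hg hu₃
  have k12 := bb_le_two' (kact_mem_Sph' hg hu₁) (kact_mem_Sph' hg hu₂)
  have k13 := bb_le_two' (kact_mem_Sph' hg hu₁) (kact_mem_Sph' hg hu₃)
  have k23 := bb_le_two' (kact_mem_Sph' hg hu₂) (kact_mem_Sph' hg hu₃)
  have b12 := bb_le_two' hu₁ hu₂
  have b13 := bb_le_two' hu₁ hu₃
  have b23 := bb_le_two' hu₂ hu₃
  rw [bb_kact' hg hu₁ hu₂] at g12 k12
  rw [bb_kact' hg hu₁ hu₃] at g13 k13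
  rw [bb_kact' hg hu₂ hu₃] at g23 k23
  obtain ⟨x, hx⟩ : ∃ x, x = (g.val *ᵥ nl u₁) o := ⟨_, rfl⟩
  obtain ⟨y, hy⟩ : ∃ y, y = (g.val *ᵥ nl u₂) o := ⟨_, rfl⟩
  obtain ⟨z, hz⟩ : ∃ z, z = (g.val *ᵥ nl u₃) o := ⟨_, rfl⟩
  rw [← hx] at l1 g12 k12 g13 k13
  rw [← hy] at l2 g12 k12 g23 k23
  rw [← hz] at l3 g13 k13 g23 k23
  rw [le_div_iff₀ (mul_pos l1 l2)] at g12
  rw [le_div_iff₀ (mul_pos l1 l3)] at g13
  rw [le_div_iff₀ (mul_pos l2 l3)] at g23
  rw [div_le_iff₀ (mul_pos l1 l2)] at k12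
  rw [div_le_iff₀ (mul_pos l1 l3)] at k13
  rw [div_le_iff₀ (mul_pos l2 l3)] at k23
  -- products of the factors
  have P : ∀ p q s : ℝ, 0 < p → 0 < q → 0 < s → c * (p * q) ≤ 2 → c * (p * s) ≤ 2 →
      c ≤ 2 * (q * s) → p ≤ Real.sqrt (8 / c ^ 3) := by
    intro p q s hp hq hs h1 h2 h3
    refine Real.le_sqrt_of_sq_le ?_
    rw [le_div_iff₀ (by positivity)]
    have h4 : (c * (p * q)) * (c * (p * s)) ≤ 2 * 2 :=
      mul_le_mul h1 h2 (by positivity) (by norm_num)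
    have h5 : p ^ 2 * c ^ 2 * c ≤ p ^ 2 * c ^ 2 * (2 * (q * s)) :=
      mul_le_mul_of_nonneg_left h3 (by positivity)
    nlinarith
  have hxb : x ≤ Real.sqrt (8 / c ^ 3) := P x y z l1 l2 l3 (by linarith) (by linarith) (by linarith)
  have hyb : y ≤ Real.sqrt (8 / c ^ 3) := P y x z l2 l1 l3 (by linarith [mul_comm x y])
    (by linarith) (by linarith)
  -- the point of the axis
  have hb0 : 0 < bb u₁ u₂ := by linarith
  have hs0 : 0 < Real.sqrt (2 * bb u₁ u₂) := Real.sqrt_pos.2 (by linarith)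
  have hsc : 0 < Real.sqrt (2 * c) := Real.sqrt_pos.2 (by linarith)
  have hsc2 : Real.sqrt (2 * c) ≤ Real.sqrt (2 * bb u₁ u₂) := Real.sqrt_le_sqrt (by linarith)
  have hsq : Real.sqrt (2 * bb u₁ u₂) ^ 2 = 2 * bb u₁ u₂ := Real.sq_sqrt (by linarith)
  obtain ⟨v, hv⟩ : ∃ v : I → ℝ, v = (Real.sqrt (2 * bb u₁ u₂))⁻¹ • (nl u₁ + nl u₂) := ⟨_, rfl⟩
  have hvo : v o = 2 / Real.sqrt (2 * bb u₁ u₂) := by
    rw [hv]
    show (Real.sqrt (2 * bb u₁ u₂))⁻¹ * (1 + 1) = _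
    ring
  have hvv : bl v v = -1 := by
    rw [hv, bl_smul_left, bl_smul_right, bl_add_left, bl_add_right, bl_add_right, bl_nl, bl_nl, bl_nl,
      bl_nl, bb_self hu₁, bb_self hu₂, bb_symm u₂ u₁]
    field_simp
    rw [hsq]
    ring
  have hlift : v = lift (fun i => v (Sum.inl i)) := eq_lift hvv (by rw [hvo]; positivity)
  obtain ⟨p, hp⟩ : ∃ p : X, p = (fun i => v (Sum.inl i)) := ⟨_, rfl⟩
  rw [← hp] at hlift
  have e1 : hd 0 p ≤ Real.arcosh (2 / Real.sqrt (2 * c)) := by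
    refine hd_le_arcosh ?_
    rw [ch_zero, ← hlift, hvo]
    exact div_le_div_of_nonneg_left (by norm_num) hsc hsc2
  have e2 : hd 0 (act g p) ≤ Real.arcosh (2 * Real.sqrt (8 / c ^ 3) / Real.sqrt (2 * c)) := by
    refine hd_le_arcosh ?_
    rw [ch_zero, lift_act hg, ← hlift, hv, Matrix.mulVec_smul, Matrix.mulVec_add]
    show (Real.sqrt (2 * bb u₁ u₂))⁻¹ * ((g.val *ᵥ nl u₁) o + (g.val *ᵥ nl u₂) o) ≤ _
    rw [← hx, ← hy, inv_mul_eq_div]
    refine div_le_div₀ (by positivity) (by linarith) hsc hsc2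
  have e3 := hd_triangle 0 (act g p) (act g 0)
  rw [hd_act hg, hd_comm p 0] at e3
  linarith

theorem exists_to_pinf {u : Fin 4 → ℝ} (hu : u ∈ Sph) : ∃ g : GLI, InG g ∧ kact g u = pinf := by
  by_cases h : u = pinf
  · refine ⟨1, InG.one, ?_⟩
    unfold kact
    rw [Units.val_one, Matrix.one_mulVec, h]
    ext i
    show pinf i / 1 = pinf i
    rw [div_one]
  obtain ⟨w, hw⟩ : ∃ w : I → ℝ, w = nl u - nl pinf := ⟨_, rfl⟩
  have hww : bl w w = 2 * bb u pinf := by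
    rw [hw, bl_sub_left, bl_sub_right, bl_sub_right, bl_nl, bl_nl, bl_nl, bl_nl, bb_self hu,
      bb_self pinf_mem, bb_symm pinf u]
    ring
  have hpos : 0 < bb u pinf := by
    have h1 : bb u pinf = (∑ i, (u i - pinf i) ^ 2) / 2 := by
      have a1 : ∑ i, u i ^ 2 = 1 := hu
      have a2 : ∑ i, pinf i ^ 2 = 1 := pinf_mem
      have a3 : ∑ i, (u i - pinf i) ^ 2 = ∑ i, u i ^ 2 + ∑ i, pinf i ^ 2 - 2 * ∑ i, u i * pinf i := by
        rw [Finset.mul_sum, ← Finset.sum_add_distrib, ← Finset.sum_sub_distrib]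
        exact Finset.sum_congr rfl (fun i _ => by ring)
      rw [a3, a1, a2]
      unfold bb
      ring
    rw [h1]
    obtain ⟨i, hi⟩ : ∃ i, u i ≠ pinf i := by
      by_contra hcon
      push Not at hcon
      exact h (funext hcon)
    have h2 : 0 < ∑ i, (u i - pinf i) ^ 2 :=
      Finset.sum_pos' (fun i _ => sq_nonneg _) ⟨i, Finset.mem_univ _, by
        have : u i - pinf i ≠ 0 := sub_ne_zero.2 hi
        positivity⟩
    linarith
  have hne : bl w w ≠ 0 := by rw [hww]; linarith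
  let f : (I → ℝ) →ₗ[ℝ] (I → ℝ) :=
    { toFun := fun v => v - (2 * bl v w / bl w w) • w
      map_add' := fun v v' => by
        rw [bl_add_left, mul_add, add_div, add_smul]; abel
      map_smul' := fun c v => by
        rw [bl_smul_left, RingHom.id_apply, smul_sub, smul_smul]
        congr 2
        ring }
  have hf : ∀ v, f v = v - (2 * bl v w / bl w w) • w := fun v => rfl
  obtain ⟨g, hg, hgf⟩ := ME0.exists_GLI (f := f) (by
    intro v v'
    rw [hf, hf, bl_sub_left, bl_sub_right, bl_sub_right, bl_smul_left, bl_smul_right, bl_smul_left,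
      bl_smul_right, bl_comm w v']
    field_simp
    ring) (by
    rw [hf]
    show 0 < lift 0 o - (2 * bl (lift 0) w / bl w w) * w o
    have : w o = 0 := by
      rw [hw]
      show (1:ℝ) - 1 = 0
      norm_num
    rw [this, mul_zero, sub_zero]
    exact lt_of_lt_of_le one_pos (lift_o_pos 0))
  refine ⟨g, hg, ?_⟩
  unfold kact
  have h2 : bl (nl u) w = bb u pinf := by
    rw [hw, bl_sub_right, bl_nl, bl_nl, bb_self hu]; ring
  rw [hgf, hf, h2, hww, div_self (by linarith), one_smul, hw, sub_sub_cancel]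
  ext i
  show pinf i / 1 = pinf i
  rw [div_one]

end Pool.Agent.helper88.WB
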