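import Pool.Agent.helper88.WB.MDefs

/-! helper36: chain lemma for broken geodesics, module [MB1] of part M of the project on MP_7b8095_gt.
The facts `hd_triangle`, `four_point`, `exists_line` are hypotheses here. -/

set_option autoImplicit false

namespace Pool.Agent.helper88.WB
open Pool.Agent.helper21.WB

namespace MB1

/-- triangle inequality -/
def Tri : Prop := ∀ x y z : X, hd x z ≤ hd x y + hd y z

/-- four point inequality -/
def Four : Prop := ∀ x y z w : X,
  hd x y + hd z w ≤ max (hd x z + hd y w) (hd x w + hd y z) + 7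

/-- geodesic lines -/
def Lines : Prop := ∀ x y : X, ∃ c : ℝ → X, c 0 = x ∧ c (hd x y) = y ∧
    ∀ s t, hd (c s) (c t) = |s - t|

theorem chainA (h4 : Four)
    {L k : ℝ} (hL : 2 * k + 23 / 2 < L) (y : ℕ → X) (N : ℕ)
    (h1 : ∀ i, i < N → L ≤ hd (y i) (y (i + 1)))
    (h2 : ∀ i, i + 1 < N → gp (y i) (y (i + 2)) (y (i + 1)) ≤ k) :
    ∀ i, i + 1 < N → gp (y 0) (y (i + 2)) (y (i + 1)) ≤ k + 7 / 2 := by
  intro i
  induction i with
  | zero =>
    intro hi
    have := h2 0 hi
    simp only [Nat.zero_add] at this ⊢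
    linarith
  | succ i ih =>
    intro hi
    have e1 := ih (by omega)
    have e2 := h2 (i + 1) hi
    have e3 := h1 (i + 1) (by omega)
    have e4 := h4 (y (i + 1)) (y (i + 3)) (y 0) (y (i + 2))
    have s1 := hd_comm (y (i + 1)) (y 0)
    have s2 := hd_comm (y (i + 2)) (y (i + 1))
    have s3 := hd_comm (y (i + 3)) (y 0)
    unfold gp at e1 e2 ⊢
    rw [show i + 1 + 1 = i + 2 from rfl, show i + 1 + 2 = i + 3 from rfl] at *
    rcases le_total (hd (y (i + 1)) (y 0) + hd (y (i + 3)) (y (i + 2)))
      (hd (y (i + 1)) (y (i + 2)) + hd (y (i + 3)) (y 0)) with h | h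
    · rw [max_eq_right h] at e4
      linarith
    · rw [max_eq_left h] at e4
      linarith

theorem chainB (h4 : Four)
    {L k : ℝ} (hk : 0 ≤ k) (hL : 2 * k + 23 / 2 < L) (y : ℕ → X) (N : ℕ)
    (h1 : ∀ i, i < N → L ≤ hd (y i) (y (i + 1)))
    (h2 : ∀ i, i + 1 < N → gp (y i) (y (i + 2)) (y (i + 1)) ≤ k) :
    ∀ i, i ≤ N → (i : ℝ) ≤ hd (y 0) (y i) := by
  intro i
  induction i with
  | zero =>
    intro _
    simpa using hd_nonneg _ _
  | succ i ih =>
    intro hi
    rcases Nat.eq_zero_or_pos i with h0 | h0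
    · subst h0
      have := h1 0 (by omega)
      simp only [Nat.zero_add] at this ⊢
      push_cast
      linarith
    · obtain ⟨j, rfl⟩ : ∃ j, i = j + 1 := ⟨i - 1, by omega⟩
      have e1 := chainA h4 hL y N h1 h2 j (by omega)
      have e2 := ih (by omega)
      have e3 := h1 (j + 1) (by omega)
      have s2 := hd_comm (y (j + 2)) (y (j + 1))
      unfold gp at e1
      rw [show j + 1 + 1 = j + 2 from rfl] at *
      push_cast at e2 ⊢
      linarith

theorem chainC (h4 : Four)
    {L k : ℝ} (hL : 2 * k + 23 / 2 < L) (y : ℕ → X) (N : ℕ)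
    (h1 : ∀ i, i < N → L ≤ hd (y i) (y (i + 1)))
    (h2 : ∀ i, i + 1 < N → gp (y i) (y (i + 2)) (y (i + 1)) ≤ k) :
    ∀ i, i + 1 < N → gp (y 0) (y N) (y (i + 1)) ≤ k + 7 := by
  intro i hi
  have e1 := chainA h4 hL y N h1 h2 i hi
  rcases Nat.lt_or_ge (i + 2) N with h | h
  · -- reversed chain
    have e2 := chainA h4 hL (fun j => y (N - j)) N (by
        intro j hj
        have := h1 (N - j - 1) (by omega)
        rw [show N - j - 1 + 1 = N - j by omega, hd_comm] at this
        simpa [Nat.sub_sub] using this) (by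
        intro j hj
        have := h2 (N - j - 2) (by omega)
        rw [show N - j - 2 + 2 = N - j by omega, show N - j - 2 + 1 = N - (j + 1) by omega,
          show N - j - 2 = N - (j + 2) by omega] at this
        unfold gp at this ⊢
        show (hd (y (N - j)) (y (N - (j + 1))) + hd (y (N - (j + 2))) (y (N - (j + 1))) -
          hd (y (N - j)) (y (N - (j + 2)))) / 2 ≤ k
        rw [hd_comm (y (N - j)) (y (N - (j + 2)))]
        linarith) (N - i - 3) (by omega)
    simp only [Nat.sub_zero] at e2
    rw [show N - (N - i - 3 + 2) = i + 1 by omega, show N - (N - i - 3 + 1) = i + 2 by omega] at e2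
    have e3 := h1 (i + 1) (by omega)
    have e4 := h4 (y 0) (y (i + 2)) (y N) (y (i + 1))
    have s1 := hd_comm (y (i + 2)) (y (i + 1))
    have s2 := hd_comm (y (i + 2)) (y N)
    unfold gp at e1 e2 ⊢
    rw [show i + 1 + 1 = i + 2 from rfl] at *
    rcases le_total (hd (y 0) (y N) + hd (y (i + 2)) (y (i + 1)))
      (hd (y 0) (y (i + 1)) + hd (y (i + 2)) (y N)) with h | h
    · rw [max_eq_right h] at e4
      linarith
    · rw [max_eq_left h] at e4
      linarith
  · have : i + 2 = N := by omega
    rw [this] at e1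
    linarith

/-- concatenation of two geodesic segments forming a geodesic segment -/
theorem exists_path (htri : Tri) (hl : Lines) (x z y : X) (h : hd x z + hd z y = hd x y) :
    ∃ c : ℝ → X, c 0 = x ∧ c (hd x z) = z ∧ c (hd x y) = y ∧
      ∀ s t, 0 ≤ s → s ≤ t → t ≤ hd x y → hd (c s) (c t) = t - s := by
  classical
  obtain ⟨c1, a1, b1, d1⟩ := hl x z
  obtain ⟨c2, a2, b2, d2⟩ := hl z y
  have hA := hd_nonneg x z
  have hB := hd_nonneg z y
  refine ⟨fun t => if t ≤ hd x z then c1 t else c2 (t - hd x z), ?_, ?_, ?_, ?_⟩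
  · simp [hA, a1]
  · simp [b1]
  · by_cases h0 : hd x y ≤ hd x z
    · have h1 : hd z y = 0 := by linarith
      have h2 : hd x y = hd x z := by linarith
      simp only [h2, le_refl, if_true, b1]
      rw [← b2, h1, a2]
    · simp only [h0, if_false]
      rw [← h, add_sub_cancel_left, b2]
  · intro s t hs hst ht
    by_cases h1 : t ≤ hd x z
    · have h2 : s ≤ hd x z := hst.trans h1
      simp only [h1, h2, if_true]
      rw [d1, abs_sub_comm, abs_of_nonneg (by linarith)]
    · by_cases h2 : s ≤ hd x z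
      · simp only [h1, h2, if_true, if_false]
        push Not at h1
        have e1 : hd (c1 s) z = hd x z - s := by
          have := d1 s (hd x z)
          rwa [b1, abs_sub_comm, abs_of_nonneg (by linarith)] at this
        have e2 : hd z (c2 (t - hd x z)) = t - hd x z := by
          have := d2 0 (t - hd x z)
          rwa [a2, abs_sub_comm, abs_of_nonneg (by linarith), sub_zero] at this
        have e3 : hd x (c1 s) = s := by
          have := d1 0 s
          rwa [a1, abs_sub_comm, abs_of_nonneg (by linarith), sub_zero] at this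
        have e4 : hd (c2 (t - hd x z)) y = hd z y - (t - hd x z) := by
          have := d2 (t - hd x z) (hd z y)
          rwa [b2, abs_sub_comm, abs_of_nonneg (by linarith)] at this
        have u1 := htri (c1 s) z (c2 (t - hd x z))
        have u2 := htri x (c1 s) y
        have u3 := htri (c1 s) (c2 (t - hd x z)) y
        linarith
      · simp only [h1, h2, if_false]
        rw [d2, abs_sub_comm, abs_of_nonneg (by linarith)]
        ring

theorem pieces {L A : ℝ} (hL : 0 < L) (hA : L ≤ A) :
    ∃ m : ℕ, 1 ≤ m ∧ L ≤ A / m ∧ A / m ≤ 2 * L := by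
  have hAL : 1 ≤ A / L := by rw [le_div_iff₀ hL]; linarith
  have hm : 1 ≤ ⌊A / L⌋₊ := by
    rw [Nat.one_le_floor_iff]; exact hAL
  have hm' : (1 : ℝ) ≤ (⌊A / L⌋₊ : ℝ) := by exact_mod_cast hm
  have h1 : ((⌊A / L⌋₊ : ℕ) : ℝ) ≤ A / L := Nat.floor_le (by linarith)
  have h2 : A / L < ⌊A / L⌋₊ + 1 := Nat.lt_floor_add_one _
  refine ⟨⌊A / L⌋₊, hm, ?_, ?_⟩
  · rw [le_div_iff₀ (by linarith)]
    rw [le_div_iff₀ hL] at h1
    linarith
  · rw [div_le_iff₀ (by linarith)]
    rw [div_lt_iff₀ hL] at h2
    nlinarith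

/-- images of finely divided geodesics -/
theorem image_chain {D a L : ℝ} (hD : 4 * L ≤ D) (hL : 0 < L) {F : X → X}
    (hF : NI D a F) {T : ℝ} (c : ℝ → X)
    (hc : ∀ s t, 0 ≤ s → s ≤ t → t ≤ T → hd (c s) (c t) = t - s) (t : ℕ → ℝ) (N : ℕ)
    (t0 : t 0 = 0) (tN : t N = T) (ht : ∀ i, i < N → L ≤ t (i + 1) - t i ∧ t (i + 1) - t i ≤ 2 * L) :
    (∀ i, i < N → L - a ≤ hd (F (c (t i))) (F (c (t (i + 1))))) ∧
    (∀ i, i < N → hd (F (c (t i))) (F (c (t (i + 1)))) ≤ t (i + 1) - t i + a) ∧
    (∀ i, i + 1 < N → gp (F (c (t i))) (F (c (t (i + 2)))) (F (c (t (i + 1)))) ≤ 3 * a / 2) ∧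
    T ≤ 2 * L * N := by
  have hmono : ∀ i, i ≤ N → 0 ≤ t i ∧ t i ≤ 2 * L * i := by
    intro i
    induction i with
    | zero => intro _; simp [t0]
    | succ i ih =>
      intro hi
      have h1 := ih (by omega)
      have h2 := ht i (by omega)
      push_cast
      constructor
      · linarith
      · linarith
  have hle : ∀ j, j ≤ N → t (N - j) ≤ T := by
    intro j
    induction j with
    | zero => intro _; simp [tN]
    | succ j ih =>
      intro hj
      have h1 := ih (by omega)
      have h2 := ht (N - (j + 1)) (by omega)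
      rw [show N - (j + 1) + 1 = N - j by omega] at h2
      linarith
  have hle' : ∀ i, i ≤ N → t i ≤ T := by
    intro i hi
    have := hle (N - i) (by omega)
    rwa [show N - (N - i) = i by omega] at this
  have hstep : ∀ i, i < N → hd (c (t i)) (c (t (i + 1))) = t (i + 1) - t i := fun i hi =>
    hc _ _ (hmono i (by omega)).1 (by linarith [(ht i hi).1]) (hle' _ (by omega))
  have hstep2 : ∀ i, i + 1 < N → hd (c (t i)) (c (t (i + 2))) = t (i + 2) - t i := fun i hi =>
    hc _ _ (hmono i (by omega)).1 (by linarith [(ht i (by omega)).1, (ht (i + 1) hi).1])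
      (hle' _ (by omega))
  have hF1 : ∀ i, i < N → |hd (F (c (t i))) (F (c (t (i + 1)))) - (t (i + 1) - t i)| ≤ a := by
    intro i hi
    rw [← hstep i hi]
    exact hF _ _ (by rw [hstep i hi]; linarith [(ht i hi).2])
  have hF2 : ∀ i, i + 1 < N → |hd (F (c (t i))) (F (c (t (i + 2)))) - (t (i + 2) - t i)| ≤ a := by
    intro i hi
    rw [← hstep2 i hi]
    refine hF _ _ ?_
    rw [hstep2 i hi]
    have h1 := (ht i (by omega)).2
    have h2 := (ht (i + 1) hi).2
    rw [show i + 1 + 1 = i + 2 from rfl] at h2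
    linarith
  refine ⟨?_, ?_, ?_, ?_⟩
  · intro i hi
    have h1 := abs_le.mp (hF1 i hi)
    linarith [(ht i hi).1]
  · intro i hi
    have h1 := abs_le.mp (hF1 i hi)
    linarith
  · intro i hi
    have h1 := abs_le.mp (hF1 i (by omega))
    have h2 := abs_le.mp (hF1 (i + 1) (by omega))
    have h3 := abs_le.mp (hF2 i hi)
    have s := hd_comm (F (c (t (i + 2)))) (F (c (t (i + 1))))
    unfold gp
    rw [show i + 1 + 1 = i + 2 from rfl] at h2
    linarith
  · rw [← tN]
    exact (hmono N le_rfl).2

/-- `coarse₁` from the three basic facts. -/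
theorem coarse₁_of (htri : Tri) (h4 : Four) (hl : Lines) (a : ℝ) :
    ∃ D c C : ℝ, 0 < c ∧ c ≤ 1 ∧ 0 ≤ C ∧ ∀ F : X → X, NI D a F →
    (∀ x y, c * hd x y - C ≤ hd (F x) (F y)) ∧ (∀ x y, hd (F x) (F y) ≤ 2 * hd x y + C) ∧
    (∀ x y z, hd x z + hd z y = hd x y → gp (F x) (F y) (F z) ≤ C) := by
  rcases lt_or_ge a 0 with ha | ha
  · refine ⟨0, 1, 0, one_pos, le_rfl, le_rfl, fun F hF => ?_⟩
    exfalso
    have := hF 0 0 (by rw [hd_self])
    rw [hd_self, hd_self] at this
    simp at this
    linarith
  -- the scale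
  obtain ⟨L, hLdef⟩ : ∃ L : ℝ, L = 4 * a + 13 := ⟨_, rfl⟩
  have hL0 : 0 < L := by linarith
  have hk : 0 ≤ 3 * a / 2 := by linarith
  have hLk : 2 * (3 * a / 2) + 23 / 2 < L - a := by rw [hLdef]; linarith
  refine ⟨4 * L, 1 / (2 * L), 2 * L + 2 * a + 7, by positivity, ?_, by linarith, fun F hF => ?_⟩
  · rw [div_le_one (by linarith)]
    linarith
  -- one segment
  have key : ∀ x y : X, L ≤ hd x y → 1 / (2 * L) * hd x y ≤ hd (F x) (F y) ∧
      hd (F x) (F y) ≤ 2 * hd x y := by
    intro x y hxy
    obtain ⟨c, c0, c1, hc⟩ := hl x y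
    obtain ⟨m, hm, hm1, hm2⟩ := pieces hL0 hxy
    have hm0 : (0 : ℝ) < m := by exact_mod_cast hm
    obtain ⟨i1, i2, i3, i4⟩ := image_chain le_rfl hL0 hF (T := hd x y) c
      (fun s t _ hst _ => by rw [hc, abs_sub_comm, abs_of_nonneg (by linarith)])
      (fun i => i * (hd x y / m)) m (by simp) (by field_simp) (fun i _ => by
        push_cast
        constructor
        · linarith
        · linarith)
    have e1 := chainB h4 hk hLk (fun i => F (c (i * (hd x y / m)))) m i1 i3 m le_rfl
    have e2 : (m : ℝ) * (hd x y / m) = hd x y := by field_simp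
    simp only [Nat.cast_zero, zero_mul, c0, e2, c1] at e1
    refine ⟨?_, ?_⟩
    · rw [one_div, inv_mul_le_iff₀ (by linarith)]
      nlinarith
    · have e3 : ∀ i, i ≤ m → hd (F (c ((0 : ℕ) * (hd x y / m)))) (F (c (i * (hd x y / m)))) ≤
          2 * (i * (hd x y / m)) := by
        intro i
        induction i with
        | zero => intro _; rw [hd_self]; simp
        | succ i ih =>
          intro hi
          have u1 := ih (by omega)
          have u2 := i2 i (by omega)
          have u3 := htri (F (c ((0 : ℕ) * (hd x y / m)))) (F (c (i * (hd x y / m))))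
            (F (c ((i + 1 : ℕ) * (hd x y / m))))
          push_cast at u2 u3 ⊢
          linarith
      have := e3 m le_rfl
      simpa [c0, e2, c1] using this
  have small : ∀ x y : X, hd x y ≤ L → hd (F x) (F y) ≤ L + a := by
    intro x y hxy
    have := abs_le.mp (hF x y (by linarith))
    linarith
  refine ⟨?_, ?_, ?_⟩
  · intro x y
    rcases le_total L (hd x y) with h | h
    · linarith [(key x y h).1]
    · have h1 := hd_nonneg (F x) (F y)
      have h2 : 1 / (2 * L) * hd x y ≤ 1 * L := by
        refine mul_le_mul ?_ h (hd_nonneg _ _) zero_le_one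
        rw [div_le_one (by linarith)]
        linarith
      linarith
  · intro x y
    rcases le_total L (hd x y) with h | h
    · linarith [(key x y h).2]
    · linarith [small x y h, hd_nonneg x y]
  · intro x y z hz
    have gple : ∀ p q w : X, gp p q w ≤ hd p w ∧ gp p q w ≤ hd q w := by
      intro p q w
      unfold gp
      have h1 := htri p q w
      have h2 := htri q p w
      rw [hd_comm q p] at h2
      constructor
      · linarith
      · linarith
    rcases le_total L (hd x z) with hA | hA
    swap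
    · linarith [(gple (F x) (F y) (F z)).1, small x z hA]
    rcases le_total L (hd z y) with hB | hB
    swap
    · have := small z y hB
      rw [hd_comm] at this
      linarith [(gple (F x) (F y) (F z)).2]
    obtain ⟨c, c0, cz, c1, hc⟩ := exists_path htri hl x z y hz
    obtain ⟨m, hm, hm1, hm2⟩ := pieces hL0 hA
    obtain ⟨n, hn, hn1, hn2⟩ := pieces hL0 hB
    have hm0 : (0 : ℝ) < m := by exact_mod_cast hm
    have hn0 : (0 : ℝ) < n := by exact_mod_cast hn
    have em : (m : ℝ) * (hd x z / m) = hd x z := by field_simp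
    have en : (n : ℝ) * (hd z y / n) = hd z y := by field_simp
    obtain ⟨t, htdef⟩ : ∃ t : ℕ → ℝ, ∀ i, t i = (min i m : ℕ) * (hd x z / m) +
      ((i - m : ℕ) : ℝ) * (hd z y / n) := ⟨_, fun i => rfl⟩
    have t0 : t 0 = 0 := by rw [htdef]; simp
    have tm : t m = hd x z := by rw [htdef]; simp [em]
    have tN : t (m + n) = hd x y := by
      rw [htdef, min_eq_right (by omega), Nat.add_sub_cancel_left, em, en, hz]
    have htstep : ∀ i, i < m + n → L ≤ t (i + 1) - t i ∧ t (i + 1) - t i ≤ 2 * L := by
      intro i hi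
      rw [htdef, htdef]
      rcases Nat.lt_or_ge i m with h | h
      · rw [min_eq_left (by omega), min_eq_left (by omega), show i + 1 - m = 0 by omega,
          show i - m = 0 by omega]
        push_cast
        constructor
        · linarith
        · linarith
      · rw [min_eq_right (by omega), min_eq_right (by omega), show i + 1 - m = (i - m) + 1 by omega]
        push_cast
        constructor
        · linarith
        · linarith
    obtain ⟨i1, i2, i3, i4⟩ := image_chain le_rfl hL0 hF (T := hd x y) c hc t (m + n) t0 tN htstep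
    have e1 := chainC h4 hLk (fun i => F (c (t i))) (m + n) i1 i3 (m - 1) (by omega)
    rw [show m - 1 + 1 = m by omega] at e1
    simp only [t0, tN, tm, c0, c1, cz] at e1
    linarith

end MB1

end Pool.Agent.helper88.WB
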